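import Pool.Agent.L5helper16.LG.Defs

set_option autoImplicit false

namespace Pool.Agent.L5helper78.LG

open Finset MeasureTheory ProbabilityTheory Filter Topology
open Pool.Agent.L5helper86.UL Pool.Agent.L5helper16.LG

private theorem VV_nonneg {Q : Finset ℕ} (hQ : ∀ q ∈ Q, q.Prime) : 0 ≤ VV Q := by
  refine Finset.prod_nonneg fun p hp => ?_
  have h1 : (1 : ℝ) ≤ p := by exact_mod_cast (hQ p hp).one_lt.le
  have : 1 / (p : ℝ) ≤ 1 := by rw [div_le_one (by linarith)]; exact h1
  linarith

private theorem VV_union_le {Q C : Finset ℕ} (hQ : ∀ q ∈ Q, q.Prime) (hC : ∀ q ∈ C, q.Prime)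
    (hd : Disjoint Q C) : VV (Q ∪ C) ≤ VV Q := by
  unfold VV
  rw [Finset.prod_union hd]
  refine mul_le_of_le_one_right (VV_nonneg hQ) ?_
  refine Finset.prod_le_one (fun p hp => ?_) fun p hp => ?_
  · have h1 : (1 : ℝ) ≤ p := by exact_mod_cast (hC p hp).one_lt.le
    have : 1 / (p : ℝ) ≤ 1 := by rw [div_le_one (by linarith)]; exact h1
    linarith
  · have : (0 : ℝ) ≤ 1 / (p : ℝ) := by positivity
    linarith

/-- the number of the elements of `A` in the class `r` -/
private def al (A : Finset ℕ) (p r : ℕ) : ℕ := #(A.filter fun n => n % p = r)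

private theorem al_le_one {A : Finset ℕ} {p : ℕ} (h : Set.InjOn (fun n : ℕ => n % p) (A : Set ℕ))
    (r : ℕ) : al A p r ≤ 1 := by
  unfold al
  rw [Finset.card_le_one]
  intro a ha b hb
  rw [Finset.mem_filter] at ha hb
  exact h ha.1 hb.1 (ha.2.trans hb.2.symm)

private theorem card_filter (A : Finset ℕ) (p r : ℕ) :
    #(A.filter fun n => n % p ≠ r) = #A - al A p r := by
  have h : #(A.filter fun n => n % p = r) + #(A.filter fun n => n % p ≠ r) = #A :=
    Finset.card_filter_add_card_filter_not (s := A) (fun n => n % p = r)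
  unfold al
  omega

private theorem sum_al (A : Finset ℕ) {p : ℕ} (hp : 0 < p) : ∑ r ∈ range p, al A p r = #A := by
  unfold al
  exact (Finset.card_eq_sum_card_fiberwise (f := fun n => n % p) (t := range p)
    fun n _ => by simpa using Nat.mod_lt n hp).symm

private theorem sum_al_al {A A' S S' : Finset ℕ} (hA : A ⊆ S) (hA' : A' ⊆ S') (p : ℕ) :
    ∑ r ∈ range p, al A p r * al A' p r ≤ cc S S' p := by
  unfold al cc
  have h1 : ∀ r ∈ range p, #(A.filter fun n => n % p = r) * #(A'.filter fun n => n % p = r)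
      = #(((A ×ˢ A').filter fun q => q.1 % p = q.2 % p).filter fun q => q.1 % p = r) := by
    intro r _
    rw [← Finset.card_product]
    congr 1
    ext ⟨x, y⟩
    simp only [Finset.mem_product, Finset.mem_filter]
    constructor
    · rintro ⟨⟨h1, h2⟩, h3, h4⟩; exact ⟨⟨⟨h1, h3⟩, h2.trans h4.symm⟩, h2⟩
    · rintro ⟨⟨⟨h1, h2⟩, h3⟩, h4⟩; exact ⟨⟨h1, h4⟩, h2, h3.symm.trans h4⟩
  rw [Finset.sum_congr rfl h1]
  calc ∑ r ∈ range p, #(((A ×ˢ A').filter fun q => q.1 % p = q.2 % p).filter fun q => q.1 % p = r)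
      ≤ #((A ×ˢ A').filter fun q => q.1 % p = q.2 % p) := by
        rw [← Finset.card_biUnion]
        · exact Finset.card_le_card (Finset.biUnion_subset.2 fun r _ => Finset.filter_subset _ _)
        · intro i _ j _ hij
          rw [Function.onFun, Finset.disjoint_filter]
          intro q _ h1 h2
          exact hij (h1.symm.trans h2)
    _ ≤ _ := Finset.card_le_card (Finset.filter_subset_filter _ (Finset.product_subset_product hA hA'))

/-- B6 from B1, B2, B3, B4 -/
theorem b6 (h1 : St_B1) (h2 : St_B2) (h3 : St_B3) (h4 : St_B4) : St_B6 := by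
  intro Ω _ P X hX Q C hQ hC hQC M hM hMp S S' m₀ hS hS' hm₀ hSS hinj hinj' hcross u hu hu2
  obtain ⟨hb1, hb2⟩ := h1 P X hX
  obtain ⟨hf0, hf1, hf2⟩ := h2
  have hM1 : (1 : ℝ) ≤ (1 - 1 / (M : ℝ))⁻¹ := by
    have hM2 : (2 : ℝ) ≤ M := by exact_mod_cast hM
    have h5 : 1 / (M : ℝ) ≤ 1 / 2 := one_div_le_one_div_of_le (by norm_num) hM2
    have h6 : (0 : ℝ) < 1 / (M : ℝ) := by positivity
    exact (one_le_inv₀ (by linarith)).2 (by linarith)
  have hu0 : 0 ≤ u := le_trans (mul_nonneg (pow_nonneg (by linarith) _) (VV_nonneg hQ)) hu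
  suffices key : ∀ D : Finset ℕ, D ⊆ C → ∀ A ⊆ S, ∀ A' ⊆ S',
      HP P X (Q ∪ D) (A ∪ A') ≤ (∏ p ∈ D, (1 + 4 * u ^ 2 * (cc S S' p : ℝ) / p)) *
        (ff (Q ∪ D) #A * ff (Q ∪ D) #A') from key C le_rfl S le_rfl S' le_rfl
  intro D
  induction D using Finset.induction_on with
  | empty =>
    intro _ A hA A' hA'
    rw [Finset.union_empty, Finset.prod_empty, one_mul]
    have hdisj : Disjoint A A' := Finset.disjoint_of_subset_left hA (Finset.disjoint_of_subset_right hA' hSS)
    have hcA := Finset.card_le_card hA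
    have hcA' := Finset.card_le_card hA'
    have hi : ∀ p ∈ Q, Set.InjOn (fun n : ℕ => n % p) ((A ∪ A' : Finset ℕ) : Set ℕ) := by
      intro p hp x hx y hy hxy
      have hpQC : p ∈ Q ∪ C := Finset.mem_union_left _ hp
      rw [Finset.mem_coe, Finset.mem_union] at hx hy
      rcases hx with hx | hx <;> rcases hy with hy | hy
      · exact hinj p hpQC (hA hx) (hA hy) hxy
      · exact absurd hxy (hcross p hp x (hA hx) y (hA' hy))
      · exact absurd hxy.symm (hcross p hp y (hA hy) x (hA' hx))
      · exact hinj' p hpQC (hA' hx) (hA' hy) hxy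
    rw [h3 P X hX Q hQ _ hi, Finset.card_union_of_disjoint hdisj]
    exact (h4 M hM Q fun p hp => hMp p (Finset.mem_union_left _ hp)).2.2.2.2 _ _ (by omega)
  | insert p D hpD ih =>
    intro hDC A hA A' hA'
    have hDC' : D ⊆ C := fun x hx => hDC (Finset.mem_insert_of_mem hx)
    have hpC : p ∈ C := hDC (Finset.mem_insert_self p D)
    have hpp : p.Prime := hC p hpC
    have hpQ : p ∉ Q := fun h => Finset.disjoint_left.1 hQC h hpC
    have hQD : Disjoint Q D := Finset.disjoint_of_subset_right hDC' hQC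
    have hpK : p ∉ Q ∪ D := by
      rw [Finset.mem_union]; rintro (h | h)
      · exact hpQ h
      · exact hpD h
    have hpQC : p ∈ Q ∪ C := Finset.mem_union_right _ hpC
    have hK : ∀ q ∈ Q ∪ D, q.Prime := by
      intro q hq
      rcases Finset.mem_union.1 hq with h | h
      · exact hQ q h
      · exact hC q (hDC' h)
    have hKM : ∀ q ∈ Q ∪ D, M ≤ q := by
      intro q hq
      rcases Finset.mem_union.1 hq with h | h
      · exact hMp q (Finset.mem_union_left _ h)
      · exact hMp q (Finset.mem_union_right _ (hDC' h))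
    have hpM : M ≤ p := hMp p hpQC
    have hp0 : (0 : ℝ) < p := by exact_mod_cast hpp.pos
    have eK : Q ∪ insert p D = insert p (Q ∪ D) := by
      ext x; simp only [Finset.mem_union, Finset.mem_insert]; tauto
    rw [eK, Finset.prod_insert hpD]
    have ih' := ih hDC'
    have hVK : VV (Q ∪ D) ≤ VV Q := VV_union_le hQ (fun q hq => hC q (hDC' hq)) hQD
    have hVK0 : 0 ≤ VV (Q ∪ D) := VV_nonneg hK
    obtain ⟨c1, c2, c3, c4, -⟩ := h4 M hM (Q ∪ D) hKM
    have hcA := Finset.card_le_card hA
    have hcA' := Finset.card_le_card hA'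
    set K := Q ∪ D with hKdef
    set Gp := ∏ q ∈ D, (1 + 4 * u ^ 2 * (cc S S' q : ℝ) / q) with hGp
    have hGp0 : 0 ≤ Gp := Finset.prod_nonneg fun q _ => by positivity
    -- the step for one set
    have hstep : ∀ m : ℕ, m ≤ m₀ → ff (insert p K) m = ff K m + (m / p) * (ff K (m - 1) - ff K m) ∧
        0 ≤ ff K (m - 1) - ff K m ∧ ff K (m - 1) - ff K m ≤ 2 * u * ff (insert p K) m ∧
        0 ≤ ff K m ∧ 0 ≤ ff (insert p K) m := by
      intro m hm
      have hf := c1 m (by omega)
      rcases m with _ | m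
      · refine ⟨by rw [hf0, hf0]; simp, by rw [Nat.zero_sub, sub_self],
          ?_, ?_, ?_⟩
        · rw [Nat.zero_sub, sub_self, hf0]; linarith
        · rw [hf0]; norm_num
        · rw [hf0]; norm_num
      · have e := hf2 K p hpK hpp.ne_zero m
        have hmono := c2 m (by omega)
        have hlow := c3 (m + 1) (by omega) p hpK hpM
        have hup := c4 m (by omega)
        rw [Nat.add_sub_cancel]
        have hfm := c1 m (by omega)
        have hκ : ((1 - 1 / (M : ℝ))⁻¹) ^ m * VV K ≤ u := by
          refine le_trans ?_ hu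
          have : ((1 - 1 / (M : ℝ))⁻¹) ^ m ≤ ((1 - 1 / (M : ℝ))⁻¹) ^ m₀ :=
            pow_le_pow_right₀ hM1 (by omega)
          exact mul_le_mul this hVK hVK0 (pow_nonneg (by linarith) _)
        have hup2 : ff K m - ff K (m + 1) ≤ u * ff K m :=
          hup.trans (mul_le_mul_of_nonneg_right hκ hfm.1)
        refine ⟨?_, by linarith, ?_, hf.1, hf.1.trans hlow⟩
        · rw [e]; push_cast; ring
        · nlinarith
    obtain ⟨e1, d1, b1, p1, q1⟩ := hstep #A (by omega)
    obtain ⟨e2, d2, b2, p2, q2⟩ := hstep #A' (by omega)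
    -- the recursion
    rw [hb2 K hK p hpp hpK (A ∪ A')]
    have hterm : ∀ r ∈ range p, HP P X K ((A ∪ A').filter fun n => n % p ≠ r) ≤
        Gp * ((ff K #A + al A p r * (ff K (#A - 1) - ff K #A)) *
          (ff K #A' + al A' p r * (ff K (#A' - 1) - ff K #A'))) := by
      intro r _
      rw [Finset.filter_union]
      have h5 := ih' (A.filter fun n => n % p ≠ r) ((Finset.filter_subset _ _).trans hA)
        (A'.filter fun n => n % p ≠ r) ((Finset.filter_subset _ _).trans hA')
      rw [card_filter, card_filter] at h5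
      have hval : ∀ B : Finset ℕ, Set.InjOn (fun n : ℕ => n % p) (B : Set ℕ) →
          ff K (#B - al B p r) = ff K #B + al B p r * (ff K (#B - 1) - ff K #B) := by
        intro B hB
        have h6 := al_le_one hB r
        rcases Nat.eq_zero_or_pos (al B p r) with h7 | h7
        · rw [h7]; simp
        · have h8 : al B p r = 1 := by omega
          rw [h8]; push_cast; ring
      rw [hval A ((hinj p hpQC).mono (by exact_mod_cast hA)),
        hval A' ((hinj' p hpQC).mono (by exact_mod_cast hA'))] at h5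
      exact h5
    have hsum := Finset.sum_le_sum hterm
    have hs1 : (∑ r ∈ range p, (al A p r : ℝ)) = #A := by exact_mod_cast sum_al A hpp.pos
    have hs2 : (∑ r ∈ range p, (al A' p r : ℝ)) = #A' := by exact_mod_cast sum_al A' hpp.pos
    have hs3 : (∑ r ∈ range p, (al A p r : ℝ) * al A' p r) ≤ cc S S' p := by
      exact_mod_cast sum_al_al hA hA' p
    set d := ff K (#A - 1) - ff K #A with hd
    set d' := ff K (#A' - 1) - ff K #A' with hd'
    have hexp : ∑ r ∈ range p, Gp * ((ff K #A + al A p r * d) * (ff K #A' + al A' p r * d'))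
        = Gp * (p * (ff K #A * ff K #A') + #A * (d * ff K #A') + #A' * (ff K #A * d')
          + (∑ r ∈ range p, (al A p r : ℝ) * al A' p r) * (d * d')) := by
      rw [← hs1, ← hs2, ← Finset.mul_sum]
      congr 1
      rw [Finset.sum_mul, Finset.sum_mul, Finset.sum_mul]
      have hp' : (p : ℝ) * (ff K #A * ff K #A') = ∑ r ∈ range p, ff K #A * ff K #A' := by
        rw [Finset.sum_const, Finset.card_range, nsmul_eq_mul]
      rw [hp', ← Finset.sum_add_distrib, ← Finset.sum_add_distrib, ← Finset.sum_add_distrib]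
      exact Finset.sum_congr rfl fun r _ => by ring
    rw [hexp] at hsum
    have hdd : 0 ≤ d * d' := mul_nonneg d1 d2
    have hdd2 : d * d' ≤ 4 * u ^ 2 * (ff (insert p K) #A * ff (insert p K) #A') := by
      calc d * d' ≤ (2 * u * ff (insert p K) #A) * (2 * u * ff (insert p K) #A') :=
            mul_le_mul b1 b2 d2 (by positivity)
        _ = _ := by ring
    have hc0 : (0 : ℝ) ≤ cc S S' p := by positivity
    calc (1 / (p : ℝ)) * ∑ r ∈ range p, HP P X K ((A ∪ A').filter fun n => n % p ≠ r)
        ≤ (1 / (p : ℝ)) * (Gp * (p * (ff K #A * ff K #A') + #A * (d * ff K #A') + #A' * (ff K #A * d')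
          + (∑ r ∈ range p, (al A p r : ℝ) * al A' p r) * (d * d'))) :=
          mul_le_mul_of_nonneg_left hsum (by positivity)
      _ ≤ (1 / (p : ℝ)) * (Gp * (p * (ff K #A * ff K #A') + #A * (d * ff K #A') + #A' * (ff K #A * d')
          + (cc S S' p + #A * #A' / p) * (d * d'))) := by
          have h9 : (∑ r ∈ range p, (al A p r : ℝ) * al A' p r) * (d * d')
              ≤ (cc S S' p + #A * #A' / p) * (d * d') :=
            mul_le_mul_of_nonneg_right (le_trans hs3 (le_add_of_nonneg_right (by positivity))) hdd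
          gcongr
      _ = Gp * (ff (insert p K) #A * ff (insert p K) #A' + cc S S' p / p * (d * d')) := by
          rw [e1, e2]
          field_simp
          ring
      _ ≤ Gp * (ff (insert p K) #A * ff (insert p K) #A' + cc S S' p / p *
            (4 * u ^ 2 * (ff (insert p K) #A * ff (insert p K) #A'))) := by
          gcongr
      _ = (1 + 4 * u ^ 2 * (cc S S' p : ℝ) / p) * Gp *
            (ff (insert p K) #A * ff (insert p K) #A') := by ring

end Pool.Agent.L5helper78.LG
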